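import Pool.Agent.U178.PE.Rat
import Pool.Agent.U178.KD.Gen

/-!
# Extension and rationality of maps of bounded complexity to general hypersurfaces and complements
-/

set_option autoImplicit false

open Filter Topology Metric Set MvPolynomial

namespace Pool.Agent.U178.PE

open Pool.Agent.U178.GG (AlgebraicRatio algPair_iff)
open Pool.Agent.U178.KD (OnDom disc_rel span_zero gmBdd_le)
open Pool.Agent.U178.AK (prim_lift M1)
open Pool.Agent.V1153.UG (AlgPair Bdd GmBdd DegLe eval_homog eval_aeval primitive)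
open Pool.Agent.TH182.VD (CI)

variable {n q : ℕ}

/-- the bound for the degree of the rational maps -/
def M2 (n m0 : ℕ) : ℕ := B1 (M1 n m0) + (n + 1) * M1 n m0

/-- algebraic maps from the plane minus a discrete set are rational -/
theorem rational_of_alg {m0 : ℕ} {D : Set ℂ} (hD : IsOpen D) (hDc : IsPreconnected D)
    (hS : ∀ a, ∀ᶠ z in 𝓝[≠] a, z ∈ D) {g : ℂ → Fin (n + 1) → ℂ} (hg : DifferentiableOn ℂ g D)
    (hne : ∀ z ∈ D, g z ≠ 0)
    (hal : ∀ j l, ∃ m ≤ m0, AlgPair m D (fun z => g z j) fun z => g z l) :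
    ∃ P : Fin (n + 1) → Polynomial ℂ, (∀ j, (P j).natDegree ≤ M2 n m0) ∧
      (∀ a, ∃ j, (P j).eval a ≠ 0) ∧
      ∀ z ∈ D, ∃ c : ℂ, c ≠ 0 ∧ g z = c • fun j => (P j).eval z := by
  classical
  have hDn : D.Nonempty := by
    obtain ⟨z, hz⟩ := (hS 0).exists
    exact ⟨z, hz⟩
  obtain ⟨u, hu, hu0, hj⟩ := prim_lift hD hDc hDn hg hne hal
  have h1 : ∀ j, ∃ p P : Polynomial ℂ, p ≠ 0 ∧ p.natDegree ≤ M1 n m0 ∧
      P.natDegree ≤ B1 (M1 n m0) ∧ ∀ z ∈ D, p.eval z * (u z * g z j) = P.eval z := fun j =>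
    rat_of_alg hD hS (hu.mul ((differentiableOn_pi.1 hg) j)) (algPair_iff.1 (hj j))
  choose p P hp hpm hPm hpP using h1
  let Pr : Polynomial ℂ := ∏ i, p i
  have hPi : Pr ≠ 0 := Finset.prod_ne_zero_iff.2 fun i _ => hp i
  let R : Fin (n + 1) → Polynomial ℂ := fun j => P j * ∏ i ∈ Finset.univ.erase j, p i
  have hR : ∀ z ∈ D, ∀ j, Pr.eval z * (u z * g z j) = (R j).eval z := by
    intro z hz j
    simp only [Pr, R]
    rw [← Finset.mul_prod_erase Finset.univ p (Finset.mem_univ j), Polynomial.eval_mul,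
      Polynomial.eval_mul, ← hpP j z hz]
    ring
  have hRd : ∀ j, (R j).natDegree ≤ M2 n m0 := by
    intro j
    refine Polynomial.natDegree_mul_le.trans (Nat.add_le_add (hPm j) ?_)
    refine (Polynomial.natDegree_prod_le _ _).trans ?_
    refine (Finset.sum_le_card_nsmul _ _ (M1 n m0) fun i _ => hpm i).trans ?_
    rw [smul_eq_mul]
    refine Nat.mul_le_mul_right _ ?_
    refine (Finset.card_le_univ _).trans ?_
    rw [Fintype.card_fin]
  have hfin : ∀ a, ∀ᶠ z in 𝓝[≠] a, Pr.eval z ≠ 0 := by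
    intro a
    exact Pool.Agent.V1153.UG.punct_ne Pr.differentiable (by
      by_contra hcon
      push Not at hcon
      exact hPi (Polynomial.funext fun z => by rw [hcon z, Polynomial.eval_zero])) a
  obtain ⟨z1, hz1, hz1'⟩ := ((hS 0).and (hfin 0)).exists
  obtain ⟨G, P', hG, hRP, hP'⟩ := primitive R (by
    by_contra hcon
    push Not at hcon
    apply hne z1 hz1
    funext j
    have h2 := hR z1 hz1 j
    rw [hcon j, Polynomial.eval_zero] at h2
    exact ((mul_eq_zero.1 ((mul_eq_zero.1 h2).resolve_left hz1')).resolve_left (hu0 z1 hz1)))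
  have hcross : ∀ z ∈ D, ∀ j k, g z j * (P' k).eval z - g z k * (P' j).eval z = 0 := by
    intro z hz j k
    have hcont : ContinuousAt (fun z => g z j * (P' k).eval z - g z k * (P' j).eval z) z := by
      have h2 : ∀ j, ContinuousAt (fun z => g z j) z := fun j =>
        (((differentiableOn_pi.1 hg) j).differentiableAt (hD.mem_nhds hz)).continuousAt
      exact ((h2 j).mul (P' k).continuous.continuousAt).sub
        ((h2 k).mul (P' j).continuous.continuousAt)
    have h3 : ∀ᶠ w in 𝓝[≠] z, g w j * (P' k).eval w - g w k * (P' j).eval w = 0 := by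
      filter_upwards [hS z, hfin z] with w hw hw2
      have e1 := hR w hw j
      have e2 := hR w hw k
      rw [hRP, Polynomial.eval_mul] at e1 e2
      have e3 : Pr.eval w * u w * (g w j * (P' k).eval w - g w k * (P' j).eval w) = 0 := by
        linear_combination (P' k).eval w * e1 - (P' j).eval w * e2
      exact (mul_eq_zero.1 e3).resolve_left (mul_ne_zero hw2 (hu0 w hw))
    have h4 : Tendsto (fun z => g z j * (P' k).eval z - g z k * (P' j).eval z) (𝓝[≠] z) (𝓝 0) :=
      tendsto_const_nhds.congr' (h3.mono fun w hw => hw.symm)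
    exact tendsto_nhds_unique (hcont.tendsto.mono_left nhdsWithin_le_nhds) h4
  refine ⟨P', fun j => ?_, hP', fun z hz => ?_⟩
  · by_cases h0 : P' j = 0
    · rw [h0, Polynomial.natDegree_zero]
      exact Nat.zero_le _
    · have h2 := hRd j
      rw [hRP, Polynomial.natDegree_mul hG h0] at h2
      omega
  · obtain ⟨k, hk⟩ := hP' z
    have e1 : g z = (g z k / (P' k).eval z) • fun j => (P' j).eval z := by
      funext j
      rw [Pi.smul_apply, smul_eq_mul, div_mul_eq_mul_div, eq_div_iff hk]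
      exact sub_eq_zero.1 (hcross z hz j k)
    refine ⟨g z k / (P' k).eval z, fun h0 => hne z hz ?_, e1⟩
    rw [e1, h0, zero_smul]

/-- polynomials without zeros different from zero -/
theorem mono_of_roots {p : Polynomial ℂ} (h : ∀ t, t ≠ 0 → p.eval t ≠ 0) :
    ∃ (c : ℂ) (k : ℕ), c ≠ 0 ∧ p = Polynomial.C c * Polynomial.X ^ k := by
  have hp : p ≠ 0 := by
    rintro rfl
    exact h 1 one_ne_zero Polynomial.eval_zero
  obtain ⟨r, hr, hnd⟩ := Polynomial.exists_eq_pow_rootMultiplicity_mul_and_not_dvd p hp 0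
  have hroot : ∀ t, r.eval t ≠ 0 := by
    intro t ht
    by_cases h0 : t = 0
    · rw [h0] at ht
      exact hnd (Polynomial.dvd_iff_isRoot.2 ht)
    · apply h t h0
      rw [hr, Polynomial.eval_mul, ht, mul_zero]
  have hdeg : r.degree = 0 := by
    by_contra h4
    obtain ⟨x, hx⟩ := IsAlgClosed.exists_root r h4
    exact hroot x hx
  have hc := Polynomial.eq_C_of_degree_eq_zero hdeg
  refine ⟨r.coeff 0, Polynomial.rootMultiplicity 0 p, fun h0 => ?_, ?_⟩
  · apply hroot 0
    rw [hc, h0, Polynomial.eval_C]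
  · rw [← hc, mul_comm]
    conv_lhs => rw [hr]
    rw [Polynomial.C_0, sub_zero]

/-- **General intersections of hypersurfaces minus hypersurfaces.** -/
theorem general_ext (d : Fin q → ℕ) (Z : Finset (Fin q)) (hZ : 2 * n + 1 ≤ ∑ i, d i + Z.card)
    (s r e δ : ℕ) : ∃ (Φ : MvPolynomial (CI n d) ℂ) (M : ℕ), Φ ≠ 0 ∧
      ∀ F : Fin q → MvPolynomial (Fin (n + 1)) ℂ, (∀ i, (F i).IsHomogeneous (d i)) →
        eval (fun x : CI n d => coeff x.2.1 (F x.1)) Φ ≠ 0 →
        ∀ (U : Set ℂ) (f : ℂ → Fin (n + 1) → ℂ),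
          OnDom {G | ∃ i ∈ Z, G = F i} (∏ i ∈ Finset.univ \ Z, F i) U f →
          Bdd U (∏ i ∈ Finset.univ \ Z, F i) s r e δ f →
          (∀ j l, ∃ m ≤ M, AlgebraicRatio m U (fun z => f z j) fun z => f z l) ∧
          ((∀ a, ∀ᶠ z in 𝓝[≠] a, z ∈ U) →
            (∃ P : Fin (n + 1) → Polynomial ℂ, (∀ j, (P j).natDegree ≤ M) ∧
              (∀ a, ∃ j, (P j).eval a ≠ 0) ∧
              ∀ z ∈ U, ∃ c : ℂ, c ≠ 0 ∧ f z = c • fun j => (P j).eval z) ∧
            ((Z = Finset.univ ∨ ∃ a, ∀ z, z ≠ a → z ∈ U) →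
              ∀ z ∈ U, ∀ w ∈ U, ∃ c : ℂ, f z = c • f w)) := by
  classical
  obtain ⟨N1, hN1⟩ := disc_rel n (∑ i, d i) s r e δ
  let M := max N1 (M2 n N1)
  obtain ⟨Φ, hΦ, h⟩ := Pool.Agent.V1153.GH.general (n := n) d Z hZ M
  refine ⟨Φ, M, hΦ, fun F hF hFΦ => ?_⟩
  have hno := h F hF hFΦ
  set E : Set (MvPolynomial (Fin (n + 1)) ℂ) := {G | ∃ i ∈ Z, G = F i} with hEdef
  set Q : MvPolynomial (Fin (n + 1)) ℂ := ∏ i ∈ Finset.univ \ Z, F i with hQdef
  have hQh : Q.IsHomogeneous (∑ i ∈ Finset.univ \ Z, d i) :=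
    IsHomogeneous.prod _ _ _ fun i _ => hF i
  have hdeg : DegLe (∑ i, d i) E Q := by
    refine ⟨?_, _, Finset.sum_le_sum_of_subset (Finset.subset_univ _), hQh⟩
    rintro _ ⟨i, -, rfl⟩
    exact ⟨d i, Finset.single_le_sum (fun _ _ => Nat.zero_le _) (Finset.mem_univ i), hF i⟩
  have hnoM : ∀ P, ¬ GmBdd (Ideal.span E) Q M P := hno
  have hno1 : ∀ P, ¬ GmBdd (Ideal.span E) Q N1 P := fun P hP =>
    hnoM P (gmBdd_le hP (le_max_left _ _))
  intro U f hf hb
  have halg := hN1 E Q hdeg hno1 U f hf hb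
  refine ⟨fun j l => ?_, fun hS => ?_⟩
  · obtain ⟨m, hm, hp⟩ := halg j l
    exact ⟨m, hm.trans (le_max_left _ _), algPair_iff.1 hp⟩
  obtain ⟨P, hPd, hP0, hPz⟩ := rational_of_alg hf.opn hf.con hS hf.diff hf.ne halg
  have hPM : ∀ j, (P j).natDegree ≤ M := fun j => (hPd j).trans (le_max_right _ _)
  refine ⟨⟨P, hPM, hP0, hPz⟩, fun hcase => ?_⟩
  by_contra hcon
  push Not at hcon
  obtain ⟨z0, hz0, w0, hw0, hzw⟩ := hcon
  have hUi : U.Infinite := infinite_of_mem_nhds z0 (hf.opn.mem_nhds hz0)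
  -- values of forms
  have hmem : ∀ G ∈ Ideal.span E, (∃ a, G.IsHomogeneous a) → aeval P G = 0 := by
    rintro G hG ⟨a, ha⟩
    refine Polynomial.eq_zero_of_infinite_isRoot _ (hUi.mono fun z hz => ?_)
    obtain ⟨c, hc, hcz⟩ := hPz z hz
    have h3 := span_zero (hf.mem z hz) G hG
    rw [hcz, show (c • fun j => (P j).eval z) = fun j => c * (P j).eval z from rfl,
      eval_homog ha] at h3
    have h4 := (mul_eq_zero.1 h3).resolve_left (pow_ne_zero _ hc)
    change Polynomial.eval z (aeval P G) = 0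
    rw [eval_aeval]
    exact h4
  have hoff : ∀ z ∈ U, (aeval P Q).eval z ≠ 0 := by
    intro z hz h3
    obtain ⟨c, hc, hcz⟩ := hPz z hz
    apply hf.off z hz
    rw [hcz, show (c • fun j => (P j).eval z) = fun j => c * (P j).eval z from rfl,
      eval_homog hQh, ← eval_aeval, h3, mul_zero]
  obtain ⟨a, ha⟩ : ∃ a, Z = Finset.univ ∨ ∀ z, z ≠ a → z ∈ U := by
    rcases hcase with h3 | ⟨a, h3⟩
    · exact ⟨0, Or.inl h3⟩
    · exact ⟨a, Or.inr h3⟩
  let T : Polynomial ℂ := Polynomial.X + Polynomial.C a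
  have hcomp : ∀ G : MvPolynomial (Fin (n + 1)) ℂ, aeval (fun j => (P j).comp T) G =
      (aeval P G : Polynomial ℂ).comp T := by
    intro G
    apply Polynomial.funext
    intro t
    rw [eval_aeval, Polynomial.eval_comp, eval_aeval]
    congr 2
    funext j
    rw [Polynomial.eval_comp]
  refine hnoM (fun j => (P j).comp T) ⟨fun j => ?_, fun G hG ha => ?_, ?_, ?_⟩
  · rw [Polynomial.natDegree_comp]
    have h3 : T.natDegree = 1 := Polynomial.natDegree_X_add_C a
    rw [h3, mul_one]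
    exact hPM j
  · rw [hcomp, hmem G hG ha, Polynomial.zero_comp]
  · rcases ha with ha | ha
    · refine ⟨1, 0, one_ne_zero, ?_⟩
      rw [hQdef, ha, Finset.sdiff_self, Finset.prod_empty, map_one]
      simp
    · obtain ⟨c, k, hc, hk⟩ := mono_of_roots (p := (aeval P Q : Polynomial ℂ).comp T) (by
        intro t ht
        rw [Polynomial.eval_comp]
        refine hoff _ (ha _ ?_)
        simp only [T, Polynomial.eval_add, Polynomial.eval_X, Polynomial.eval_C]
        intro h4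
        exact ht (by linear_combination h4))
      exact ⟨c, k, hc, by rw [hcomp, hk]⟩
  · by_contra hcon2
    push Not at hcon2
    obtain ⟨c1, hc1, e1⟩ := hPz z0 hz0
    obtain ⟨c2, hc2, e2⟩ := hPz w0 hw0
    have hev : ∀ (j : Fin (n + 1)) (x : ℂ), ((P j).comp T).eval (x - a) = (P j).eval x := by
      intro j x
      rw [Polynomial.eval_comp]
      simp [T]
    obtain ⟨k, hk⟩ := hP0 w0
    apply hzw (c1 * (P k).eval z0 / (P k).eval w0 / c2)
    rw [e1, e2]
    funext j
    have h3 := hcon2 (z0 - a) (w0 - a) j k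
    rw [hev, hev, hev, hev] at h3
    simp only [Pi.smul_apply, smul_eq_mul]
    field_simp
    linear_combination h3

end Pool.Agent.U178.PE
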