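import Pool.Agent.U178.AK.Cen
import Pool.Agent.U178.GG.Alg

/-!
# Algebraic functions on the plane minus a discrete set
-/

set_option autoImplicit false

open Filter Topology Metric Set

namespace Pool.Agent.U178.PE

open Pool.Agent.U178.GG (AlgebraicRatio)
open Pool.Agent.U178.KD (poly_pair)
open Pool.Agent.V1153.UG (root_bound zero_of_punct)

/-- the monic equation -/
theorem monic_rel {m : ℕ} {D : Set ℂ} (hDi : D.Infinite) {W : ℂ → ℂ}
    (h : AlgebraicRatio m D W (fun _ => 1)) :
    ∃ (p : Polynomial ℂ) (k : ℕ) (b : Fin k → Polynomial ℂ), p ≠ 0 ∧ p.natDegree ≤ m ∧ k ≤ m ∧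
      (∀ β, (b β).natDegree ≤ m * m) ∧
      ∀ z ∈ D, (p.eval z * W z) ^ k + ∑ β, (b β).eval z * (p.eval z * W z) ^ (β : ℕ) = 0 := by
  classical
  obtain ⟨p, ⟨β', hβ'⟩, hdeg, hrel⟩ := h
  let p' : ℕ → Polynomial ℂ := fun i => if h : i < m + 1 then p ⟨i, h⟩ else 0
  have hp' : ∀ i, (p' i).natDegree ≤ m := by
    intro i
    simp only [p']
    split_ifs with h
    · exact hdeg _
    · simp
  have hsum : ∀ z ∈ D, ∑ i ∈ Finset.range (m + 1), (p' i).eval z * W z ^ i = 0 := by
    intro z hz
    rw [← hrel z hz, Finset.sum_range]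
    refine Finset.sum_congr rfl fun β _ => ?_
    simp only [p', β.2, dif_pos, Fin.eta, one_pow, mul_one]
  have hex : ∃ i ≤ m, p' i ≠ 0 := by
    refine ⟨β', by omega, ?_⟩
    simp only [p', β'.2, dif_pos, Fin.eta]
    exact hβ'
  obtain ⟨i0, hi0, hpi0⟩ := hex
  let k := Nat.findGreatest (fun i => p' i ≠ 0) m
  have hk0 : p' k ≠ 0 := Nat.findGreatest_spec (P := fun i => p' i ≠ 0) hi0 hpi0
  have hkm : k ≤ m := Nat.findGreatest_le m
  have hkz : ∀ i, k < i → i ≤ m → p' i = 0 := fun i h1 h2 => by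
    by_contra h3
    exact Nat.findGreatest_is_greatest (P := fun i => p' i ≠ 0) h1 h2 h3
  have hsum' : ∀ z ∈ D, ∑ i ∈ Finset.range (k + 1), (p' i).eval z * W z ^ i = 0 := by
    intro z hz
    rw [← hsum z hz]
    refine Finset.sum_subset (Finset.range_mono (by omega)) fun i hi hi' => ?_
    rw [Finset.mem_range] at hi hi'
    rw [hkz i (by omega) (by omega), Polynomial.eval_zero, zero_mul]
  have hkpos : k ≠ 0 := by
    intro h0
    apply hk0
    refine Polynomial.eq_zero_of_infinite_isRoot _ (hDi.mono fun z hz => ?_)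
    have h1 := hsum' z hz
    rw [h0] at h1 ⊢
    simpa using h1
  refine ⟨p' k, k, fun β => p' β * p' k ^ (k - 1 - β), hk0, hp' k, hkm, fun β => ?_,
    fun z hz => ?_⟩
  · refine Polynomial.natDegree_mul_le.trans ?_
    have h1 : (p' k ^ (k - 1 - (β : ℕ))).natDegree ≤ (k - 1 - β) * m :=
      Polynomial.natDegree_pow_le.trans (Nat.mul_le_mul_left _ (hp' k))
    have h2 := hp' β
    have h3 : (k - 1 - (β : ℕ)) * m ≤ (m - 1) * m := Nat.mul_le_mul_right _ (by omega)
    have h4 : (m - 1) * m + m = m * m := by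
      rcases m with _ | m
      · omega
      · simp
        ring
    omega
  · have h1 := hsum' z hz
    rw [Finset.sum_range_succ, Finset.sum_range] at h1
    have h2 : (p' k).eval z ^ (k - 1) * (∑ i : Fin k, (p' i).eval z * W z ^ (i : ℕ) +
        (p' k).eval z * W z ^ k) = 0 := by rw [h1, mul_zero]
    rw [← h2, mul_add, add_comm, Finset.mul_sum]
    congr 1
    · refine Finset.sum_congr rfl fun β _ => ?_
      rw [Polynomial.eval_mul, Polynomial.eval_pow, mul_pow]
      have h3 : (p' k).eval z ^ (k - 1) =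
          (p' k).eval z ^ (k - 1 - (β : ℕ)) * (p' k).eval z ^ (β : ℕ) := by
        rw [← pow_add]
        congr 1
        have := β.2
        omega
      rw [h3]
      ring
    · obtain ⟨k', hk'⟩ : ∃ k', k = k' + 1 := ⟨k - 1, by omega⟩
      rw [hk', mul_pow]
      simp only [Nat.add_sub_cancel]
      ring

/-- the bound for the degree -/
def B1 (m : ℕ) : ℕ := 3 * (m * m + m + 1)

/-- algebraic functions on the plane minus a discrete set are rational -/
theorem rat_of_alg {m : ℕ} {D : Set ℂ} (hD : IsOpen D) (hS : ∀ a, ∀ᶠ z in 𝓝[≠] a, z ∈ D)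
    {W : ℂ → ℂ} (hW : DifferentiableOn ℂ W D) (h : AlgebraicRatio m D W (fun _ => 1)) :
    ∃ p P : Polynomial ℂ, p ≠ 0 ∧ p.natDegree ≤ m ∧ P.natDegree ≤ B1 m ∧
      ∀ z ∈ D, p.eval z * W z = P.eval z := by
  classical
  have hDi : D.Infinite := by
    obtain ⟨z, hz⟩ := (hS 0).exists
    exact infinite_of_mem_nhds z (hD.mem_nhds hz)
  obtain ⟨p, k, b, hp, hpm, hkm, hb, hrel⟩ := monic_rel hDi h
  let E : ℂ → ℂ := fun z => p.eval z * W z
  have hE : DifferentiableOn ℂ E D := p.differentiable.differentiableOn.mul hW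
  have hbd : ∀ z ∈ D, ‖E z‖ ≤ 1 + ∑ β, ‖(b β).eval z‖ := fun z hz =>
    root_bound (fun β => (b β).eval z) (E z) (hrel z hz)
  have hbc : Continuous fun z => 1 + ∑ β, ‖(b β).eval z‖ := by
    refine continuous_const.add (continuous_finsetSum _ fun β _ => ?_)
    exact (b β).continuous.norm
  let E' : ℂ → ℂ := fun z => limUnder (𝓝[≠] z) E
  have hEE : ∀ z ∈ D, E' z = E z := fun z hz => by
    have h1 : ContinuousAt E z := (hE.differentiableAt (hD.mem_nhds hz)).continuousAt
    exact (h1.tendsto.mono_left nhdsWithin_le_nhds).limUnder_eq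
  have hE' : Differentiable ℂ E' := by
    intro a
    obtain ⟨s, hs, hsD, C, hC⟩ : ∃ s ∈ 𝓝 a, s \ {a} ⊆ D ∧ ∃ C, ∀ z ∈ s,
        1 + ∑ β, ‖(b β).eval z‖ ≤ C := by
      have h1 := hS a
      rw [eventually_nhdsWithin_iff] at h1
      have h2 : ∀ᶠ z in 𝓝 a, 1 + ∑ β, ‖(b β).eval z‖ <
          1 + ∑ β, ‖(b β).eval a‖ + 1 :=
        hbc.continuousAt.eventually_lt continuousAt_const (by linarith)
      obtain ⟨s, hs⟩ := (h1.and h2).exists_mem
      exact ⟨s, hs.1, fun z hz => (hs.2 z hz.1).1 hz.2, _, fun z hz => (hs.2 z hz).2.le⟩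
    have h1 := Complex.differentiableOn_update_limUnder_of_bddAbove hs (hE.mono hsD) (by
      refine ⟨C, ?_⟩
      rintro _ ⟨z, hz, rfl⟩
      exact (hbd z (hsD hz)).trans (hC z hz.1))
    have h2 : DifferentiableAt ℂ (Function.update E a (limUnder (𝓝[≠] a) E)) a :=
      (h1 a (mem_of_mem_nhds hs)).differentiableAt hs
    refine h2.congr_of_eventuallyEq ?_
    filter_upwards [hs] with z hz
    by_cases hza : z = a
    · rw [hza, Function.update_self]
    · rw [Function.update_of_ne hza]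
      exact hEE z (hsD ⟨hz, hza⟩)
  have hrel' : ∀ z, E' z ^ k + ∑ β, (b β).eval z * E' z ^ (β : ℕ) = 0 := by
    intro z
    refine zero_of_punct (F := fun z => E' z ^ k + ∑ β, (b β).eval z * E' z ^ (β : ℕ)) ?_ ?_
    · refine (hE'.continuous.pow k).add (continuous_finsetSum _ fun β _ => ?_)
      exact (b β).continuous.mul (hE'.continuous.pow _)
    · filter_upwards [hS z] with w hw
      rw [hEE w hw]
      exact hrel w hw
  let M0 := m * m + m
  let p2 : Fin (M0 + 1) → Polynomial ℂ := fun β =>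
    if h : (β : ℕ) < k then b ⟨β, h⟩ else if (β : ℕ) = k then 1 else 0
  obtain ⟨c, hc, hcz⟩ := poly_pair (m := M0) p2 (by
    refine ⟨⟨k, by omega⟩, ?_⟩
    simp [p2]) (by
    intro β
    simp only [p2]
    split_ifs with h1 h2
    · exact (hb _).trans (Nat.le_add_right _ _)
    · simp
    · simp)
  obtain ⟨P, hP, hPz⟩ := Pool.Agent.U178.AK.poly_of_alg (n := 1) (m0 := M0)
    (W := fun z _ => E' z) (fun _ => hE') (fun _ => ⟨M0, le_rfl, c, hc, fun z => by
      rw [hcz]
      simp only [one_pow, mul_one]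
      have h1 : ∑ β : Fin (M0 + 1), (p2 β).eval z * E' z ^ (β : ℕ) =
          ∑ i ∈ Finset.range (M0 + 1), (if h : i < k then (b ⟨i, h⟩).eval z else
            if i = k then 1 else 0) * E' z ^ i := by
        rw [Finset.sum_range]
        refine Finset.sum_congr rfl fun β _ => ?_
        simp only [p2]
        split_ifs <;> simp
      rw [h1]
      have h2 : ∑ i ∈ Finset.range (M0 + 1), (if h : i < k then (b ⟨i, h⟩).eval z else
            if i = k then 1 else 0) * E' z ^ i =
          ∑ i ∈ Finset.range (k + 1), (if h : i < k then (b ⟨i, h⟩).eval z else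
            if i = k then 1 else 0) * E' z ^ i := by
        refine (Finset.sum_subset (Finset.range_mono (by omega)) fun i hi hi' => ?_).symm
        rw [Finset.mem_range] at hi hi'
        rw [dif_neg (by omega), if_neg (by omega), zero_mul]
      rw [h2, Finset.sum_range_succ, Finset.sum_range, dif_neg (lt_irrefl k), if_pos rfl, one_mul,
        add_comm]
      rw [← hrel' z]
      congr 1
      refine Finset.sum_congr rfl fun β _ => ?_
      rw [dif_pos β.2]⟩)
  refine ⟨p, P 0, hp, hpm, hP 0, fun z hz => ?_⟩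
  rw [← hPz z 0]
  exact (hEE z hz).symm

end Pool.Agent.U178.PE
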